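import Mathlib
import Pool.Agent.Y178.LF.SFR

set_option autoImplicit false

/-!
# A `p`-stable `p`-family without property (S) in a strongly `F`-regular ring

For every prime `p` let `R = F_p[x, y]` and let `b_e = (x y (x + y))` for every `e`. This is a
`p`-stable `p`-family, since the ideal is radical, but it does not have property (S): a surjective
`φ` compatible with `(x y (x + y))` would be compatible with the non-radical ideal
`(x y, x + y)`.
-/

namespace Pool.Agent.Results.MP_30687b_ag.StableWithoutS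

open MvPolynomial

section Definitions

variable {R : Type} [CommRing R] (p : ℕ)

/-- `φ` is an element of `Hom_R(F^d_* R, R)`: an additive map `φ : R → R` such that
`φ(F^d_*(r ^ (p ^ d) s)) = r φ(F^d_* s)`. -/
def IsCartier (d : ℕ) (φ : R →+ R) : Prop := ∀ r s : R, φ (r ^ p ^ d * s) = r * φ s

/-- `R`, of characteristic `p`, is `F`-finite: the Frobenius endomorphism is finite. -/
def FFinite (R : Type) [CommRing R] (p : ℕ) [ExpChar R p] : Prop := (frobenius R p).Finite

/-- `R` is strongly `F`-regular: for every `c` not in any minimal prime there are `e ≥ 1` and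
`ψ ∈ Hom_R(F^e_* R, R)` with `ψ(F^e_* c) = 1`. -/
def StronglyFRegular (R : Type) [CommRing R] (p : ℕ) : Prop :=
  ∀ c : R, (∀ P ∈ minimalPrimes R, c ∉ P) →
    ∃ e : ℕ, 1 ≤ e ∧ ∃ ψ : R →+ R, IsCartier p e ψ ∧ ψ c = 1

/-- `b` is a `p`-family: `b_e^{[p]} ⊆ b_{e+1}` for all `e`, where `I^{[p]}` is the ideal generated
by the `p`-th powers of the elements of `I`. -/
def IsPFamily (b : ℕ → Ideal R) : Prop :=
  ∀ e, Ideal.span {g | ∃ x ∈ b e, g = x ^ p} ≤ b (e + 1)

/-- The `e`-th ideal of the `p`-stabilization of `b`, as a set: all `r` with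
`r ^ (p ^ f) ∈ b_{e+f}` for all sufficiently large `f`. -/
def stabilization (b : ℕ → Ideal R) (e : ℕ) : Set R :=
  {r | ∃ N : ℕ, ∀ f : ℕ, N ≤ f → r ^ p ^ f ∈ b (e + f)}

/-- `b` is `p`-stable: it equals its `p`-stabilization. -/
def IsPStable (b : ℕ → Ideal R) : Prop := ∀ e, stabilization p b e = (b e : Set R)

/-- Property (S): there are `d ≥ 1` and a surjective `φ ∈ Hom_R(F^d_* R, R)` with
`φ(F^d_* b_{e+d}) ⊆ b_e` for all `e`. -/
def PropertyS (b : ℕ → Ideal R) : Prop :=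
  ∃ d : ℕ, 1 ≤ d ∧ ∃ φ : R →+ R, IsCartier p d φ ∧ Function.Surjective φ ∧
    ∀ e, ∀ x ∈ b (e + d), φ x ∈ b e

end Definitions

section

variable {p : ℕ} [hp : Fact p.Prime]

/-- the polynomial ring -/
abbrev S (p : ℕ) : Type := MvPolynomial (Fin 2) (ZMod p)

lemma ffinite : FFinite (S p) p := by
  have h1 : (frobenius (S p) p).IsIntegral := by
    intro a
    refine ⟨Polynomial.X ^ p - Polynomial.C a, ?_, ?_⟩
    · exact Polynomial.monic_X_pow_sub_C a hp.out.ne_zero
    · rw [Polynomial.eval₂_sub, Polynomial.eval₂_pow, Polynomial.eval₂_X, Polynomial.eval₂_C]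
      simp [frobenius_def]
  have h2 : (frobenius (S p) p).FiniteType := by
    have h3 : ((frobenius (S p) p).comp (algebraMap (ZMod p) (S p))).FiniteType := by
      have e : (frobenius (S p) p).comp (algebraMap (ZMod p) (S p)) =
          algebraMap (ZMod p) (S p) := Subsingleton.elim _ _
      rw [e, RingHom.finiteType_algebraMap]
      infer_instance
    exact RingHom.FiniteType.of_comp_finiteType h3
  exact h1.to_finite h2

lemma sfr : StronglyFRegular (S p) p := by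
  intro c hc
  have h0 : c ≠ 0 := by
    rintro rfl
    obtain ⟨P, hP⟩ := Ideal.nonempty_minimalPrimes (I := (⊥ : Ideal (S p))) bot_ne_top
    exact hc P hP P.zero_mem
  obtain ⟨e, he, φ, h1, h2⟩ :=
    Pool.Agent.Y178.LF.isStronglyFRegular_mvPolynomial (k := ZMod p) (σ := Fin 2) p
      hp.out.one_lt c h0
  exact ⟨e, he, φ, h1, h2⟩

/-- the generator -/
noncomputable def G (p : ℕ) : S p := X 0 * X 1 * (X 0 + X 1)

/-- the automorphism `x ↦ x + y` (up to sign) shows that `x + y` is prime -/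
lemma prime_add : Prime (X 0 + X 1 : S p) := by
  let f : S p →ₐ[ZMod p] S p := aeval ![X 0 + X 1, X 1]
  let g : S p →ₐ[ZMod p] S p := aeval ![X 0 - X 1, X 1]
  have hfg : f.comp g = AlgHom.id _ _ := by
    apply MvPolynomial.algHom_ext
    intro i
    fin_cases i <;> simp [f, g]
  have hgf : g.comp f = AlgHom.id _ _ := by
    apply MvPolynomial.algHom_ext
    intro i
    fin_cases i <;> simp [f, g]
  let E : S p ≃ₐ[ZMod p] S p := AlgEquiv.ofAlgHom f g hfg hgf
  have h : E (X 0) = X 0 + X 1 := by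
    show f (X 0) = _
    simp [f]
  rw [← h]
  exact (MulEquiv.prime_iff E.toMulEquiv).2 X_prime

lemma eval_ne {a b : ZMod p} {u v : S p} (hu : eval ![a, b] u = 0) (hv : eval ![a, b] v ≠ 0) :
    ¬ u ∣ v := by
  rintro ⟨w, rfl⟩
  rw [map_mul, hu, zero_mul] at hv
  exact hv rfl

lemma n1 : ¬ (X 0 : S p) ∣ X 1 := eval_ne (a := 0) (b := 1) (by simp) (by simp)
lemma n2 : ¬ (X 0 : S p) ∣ X 0 + X 1 := eval_ne (a := 0) (b := 1) (by simp) (by simp)
lemma n3 : ¬ (X 1 : S p) ∣ X 0 := eval_ne (a := 1) (b := 0) (by simp) (by simp)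
lemma n4 : ¬ (X 1 : S p) ∣ X 0 + X 1 := eval_ne (a := 1) (b := 0) (by simp) (by simp)
lemma n5 : ¬ (X 0 + X 1 : S p) ∣ X 0 := eval_ne (a := 1) (b := -1) (by simp) (by simp)
lemma n6 : ¬ (X 0 + X 1 : S p) ∣ X 1 := eval_ne (a := 1) (b := -1) (by simp) (by simp)

lemma G_dvd {u : S p} (h0 : X 0 ∣ u) (h1 : X 1 ∣ u) (h2 : (X 0 + X 1) ∣ u) : G p ∣ u := by
  obtain ⟨v, rfl⟩ := h0
  obtain ⟨w, rfl⟩ := ((X_prime (R := ZMod p) (i := (1 : Fin 2))).dvd_or_dvd h1).resolve_left n3
  obtain ⟨s, rfl⟩ := (prime_add.dvd_or_dvd ((prime_add.dvd_or_dvd h2).resolve_left n5)).resolve_left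
    n6
  exact ⟨s, by unfold G; ring⟩

lemma G_dvd_iff {u : S p} : G p ∣ u ↔ X 0 ∣ u ∧ X 1 ∣ u ∧ (X 0 + X 1) ∣ u := by
  constructor
  · intro h
    exact ⟨dvd_trans ⟨X 1 * (X 0 + X 1), by unfold G; ring⟩ h,
      dvd_trans ⟨X 0 * (X 0 + X 1), by unfold G; ring⟩ h,
      dvd_trans ⟨X 0 * X 1, by unfold G; ring⟩ h⟩
  · rintro ⟨h0, h1, h2⟩
    exact G_dvd h0 h1 h2

/-- the constant family -/
noncomputable def fam (p : ℕ) : ℕ → Ideal (S p) := fun _ => Ideal.span {G p}

lemma pfamily : IsPFamily p (fam p) := by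
  intro e
  rw [Ideal.span_le]
  rintro _ ⟨x, hx, rfl⟩
  exact Ideal.pow_mem_of_mem _ hx _ hp.out.pos

lemma pstable : IsPStable p (fam p) := by
  intro e
  ext r
  constructor
  · rintro ⟨N, hN⟩
    have h := hN N le_rfl
    have h' : G p ∣ r ^ p ^ N := Ideal.mem_span_singleton.1 h
    rw [G_dvd_iff] at h'
    exact Ideal.mem_span_singleton.2 (G_dvd (X_prime.dvd_of_dvd_pow h'.1)
      (X_prime.dvd_of_dvd_pow h'.2.1) (prime_add.dvd_of_dvd_pow h'.2.2))
  · intro h
    exact ⟨0, fun f _ => Ideal.pow_mem_of_mem _ h _ (pow_pos hp.out.pos _)⟩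

/-- the components of a compatible ideal are compatible -/
lemma comp {d : ℕ} {φ : S p →+ S p} (hφ : IsCartier p d φ)
    (h : ∀ x, G p ∣ x → G p ∣ φ x) {a c : S p} (ha : Prime a) (hG : G p = a * c) (hac : ¬ a ∣ c)
    {x : S p} (hx : a ∣ x) : a ∣ φ x := by
  have h1 : G p ∣ c ^ p ^ d * x := by
    rw [hG, mul_comm a c]
    exact mul_dvd_mul (dvd_pow_self c (pow_ne_zero _ hp.out.ne_zero)) hx
  have h2 := h _ h1
  rw [hφ] at h2
  have h3 : a ∣ c * φ x := dvd_trans ⟨c, hG⟩ h2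
  exact (ha.dvd_or_dvd h3).resolve_left hac

lemma notS : ¬ PropertyS p (fam p) := by
  rintro ⟨d, hd, φ, hφ, hsurj, hcomp⟩
  have h : ∀ x, G p ∣ x → G p ∣ φ x := fun x hx =>
    Ideal.mem_span_singleton.1 (hcomp 0 x (Ideal.mem_span_singleton.2 hx))
  have cx : ∀ x, X 0 ∣ x → X 0 ∣ φ x := fun x hx => by
    refine comp hφ h (c := X 1 * (X 0 + X 1)) X_prime (by unfold G; ring) ?_ hx
    intro h'
    rcases X_prime.dvd_or_dvd h' with h' | h'
    · exact n1 h'
    · exact n2 h'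
  have cy : ∀ x, X 1 ∣ x → X 1 ∣ φ x := fun x hx => by
    refine comp hφ h (c := X 0 * (X 0 + X 1)) X_prime (by unfold G; ring) ?_ hx
    intro h'
    rcases X_prime.dvd_or_dvd h' with h' | h'
    · exact n3 h'
    · exact n4 h'
  have cxy : ∀ x, (X 0 + X 1) ∣ x → (X 0 + X 1) ∣ φ x := fun x hx => by
    refine comp hφ h (c := X 0 * X 1) prime_add (by unfold G; ring) ?_ hx
    intro h'
    rcases prime_add.dvd_or_dvd h' with h' | h'
    · exact n5 h'
    · exact n6 h'
  obtain ⟨s, hs⟩ := hsurj 1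
  -- `x ^ q s = x ^ (q-1) (x + y) s - x ^ (q-1) y s` and both summands are in compatible ideals
  have hq : 2 ≤ p ^ d := le_trans hp.out.two_le (Nat.le_self_pow (by omega) p)
  obtain ⟨q, hq'⟩ := Nat.exists_eq_add_of_le' hq
  have h1 : φ (X 0 ^ p ^ d * s) = X 0 := by rw [hφ, hs, mul_one]
  have h2 : X 0 ^ p ^ d * s = (X 0 + X 1) * (X 0 ^ (q + 1) * s) - X 1 * (X 0 * (X 0 ^ q * s)) := by
    rw [hq']; ring
  rw [h2, map_sub] at h1
  obtain ⟨u, hu⟩ := cxy _ (Dvd.intro (X 0 ^ (q + 1) * s) rfl)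
  have h3 := cy _ (Dvd.intro (X 0 * (X 0 ^ q * s)) rfl)
  have h4 := cx (X 1 * (X 0 * (X 0 ^ q * s))) ⟨X 1 * (X 0 ^ q * s), by ring⟩
  obtain ⟨v, hv⟩ := h4
  rw [hv] at h3
  obtain ⟨w, hw⟩ := (X_prime.dvd_or_dvd h3).resolve_left n3
  rw [hu, hv, hw] at h1
  -- `x = (x + y) u - x y w`; substitute `y = -x`
  let f : S p →ₐ[ZMod p] S p := aeval ![X 0, -X 0]
  have h5 := congrArg f h1
  have f0 : f (X 0) = X 0 := by simp [f]
  have f1 : f (X 1) = -X 0 := by simp [f]
  rw [map_sub, map_mul, map_add, map_mul, map_mul, f0, f1, add_neg_cancel, zero_mul,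
    zero_sub] at h5
  have h6 : X 0 * f w = 1 := by
    apply mul_left_cancel₀ (X_ne_zero (R := ZMod p) (0 : Fin 2))
    linear_combination h5
  have h7 := congrArg constantCoeff h6
  rw [map_mul, constantCoeff_X, zero_mul, map_one] at h7
  exact zero_ne_one h7

end

/-- **`p`-stability does not imply property (S).** For every prime `p` the polynomial ring
`F_p[x, y]` is a Noetherian `F`-finite strongly `F`-regular ring of characteristic `p`, and it has
a `p`-stable `p`-family of ideals without property (S). -/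
theorem result : ∀ (p : ℕ) [Fact p.Prime],
    IsNoetherianRing (MvPolynomial (Fin 2) (ZMod p)) ∧ CharP (MvPolynomial (Fin 2) (ZMod p)) p ∧
    FFinite (MvPolynomial (Fin 2) (ZMod p)) p ∧
    StronglyFRegular (MvPolynomial (Fin 2) (ZMod p)) p ∧
    ∃ b : ℕ → Ideal (MvPolynomial (Fin 2) (ZMod p)),
      IsPFamily p b ∧ IsPStable p b ∧ ¬ PropertyS p b := by
  intro p _
  exact ⟨inferInstance, inferInstance, ffinite, sfr, fam p, pfamily, pstable, notS⟩

end Pool.Agent.Results.MP_30687b_ag.StableWithoutS
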